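import Pool.Agent.H30.DiaC

set_option autoImplicit false

namespace Pool.Agent.Results.MP_1599f7_gt.Diamond

open Pool.Agent.H30.Dia

/-- Under the diamond principle some Tychonoff Lusin space is a gamma-space. -/
theorem result (h : Diamond) : ∃ (X : Type) (_ : TopologicalSpace X),
    T35Space X ∧ T2Space X ∧ (∀ s : Set X, IsNowhereDense s → s.Countable) ∧
    {x : X | IsOpen ({x} : Set X)}.Countable ∧ Uncountable X ∧
    ∀ 𝒰 : Set (Set X), (∀ U ∈ 𝒰, IsOpen U) → Set.univ ∉ 𝒰 →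
      (∀ F : Finset X, ∃ U ∈ 𝒰, ↑F ⊆ U) →
      ∃ 𝒱 ⊆ 𝒰, 𝒱.Infinite ∧ ⋃₀ 𝒱 = Set.univ ∧ ∀ x, {V ∈ 𝒱 | x ∉ V}.Finite := by
  obtain ⟨t, ht⟩ := exists_tr h False
  exact ⟨Sp t, inferInstance, inferInstance, inferInstance, fun _ => ht.lusin,
    Set.countable_empty.mono fun z hz => ht.no_iso z hz, unc t, ht.gamma⟩

end Pool.Agent.Results.MP_1599f7_gt.Diamond
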